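import Pool.Agent.H85.ERG.Targets

/-!
# Row MM0: elementary properties of `mm`
-/

set_option autoImplicit false

namespace Pool.Agent.H13.ERG

open MeasureTheory Set Metric Filter Topology Pool.Agent.H85.ERG Pool.Agent.H93.EN
open Pool.Agent.H93.BL hiding T_B1 T_B2 T_B3 T_SB T_SC

variable {ι : Type} {P : Polygon ι} {κ a L : ℝ}

theorem ch_nonneg (hκ : 0 < κ) (ha : 0 < a) (hL : 0 < L) {c : ℝ} {x w : ℂ}
    (h : Ch P κ a L c x w) : 0 ≤ c := by
  induction h with
  | stop x w hx => exact div_nonneg infDist_nonneg ha.le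
  | step c s e x w x' w' _ _ _ _ ih => positivity

theorem fw_neg (h2 : T_FO) (τ : Option ι) (y w : ℂ) : fw P τ y (-w) = -fw P τ y w := by
  have h := ((h2 ι P).1 τ y w).2.2.2 (-1)
  simpa using h

theorem mv_neg (h2 : T_FO) {x w v x' w' : ℂ} (h : Mv P κ a x w v x' w') :
    Mv P κ a x (-w) v x' (-w') := by
  obtain ⟨h1, h3, h4, h5, τ, h6, h7, h8⟩ := h
  exact ⟨h1, h3, h4, h5, τ, h6, h7, by rw [fw_neg h2, h8]⟩

theorem ch_neg (h2 : T_FO) {c : ℝ} {x w : ℂ} (h : Ch P κ a L c x w) : Ch P κ a L c x (-w) := by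
  induction h with
  | stop x w hx => exact Ch.stop x (-w) hx
  | step c s e x w x' w' h1 h3 h4 _ ih =>
    have h5 : Mv P κ a x (-w) (((-s : ℝ) : ℂ) * (-w) + e) x' (-w') := by
      have h6 := mv_neg h2 h4
      have h7 : (((-s : ℝ) : ℂ) * (-w) + e) = (s : ℂ) * w + e := by push_cast; ring
      rw [h7]
      exact h6
    have h8 := Ch.step c (-s) e x (-w) x' (-w') (by rwa [abs_neg]) h3 h5 ih
    rwa [abs_neg] at h8

/-- Row MM0. -/
theorem mm0 (h2 : T_FO) : T_MM0 := by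
  intro ι P κ a L hκ ha hL x w
  have hb : BddBelow {c | Ch P κ a L c x w} := ⟨0, fun c hc => ch_nonneg hκ ha hL hc⟩
  refine ⟨fun c hc => ⟨ch_nonneg hκ ha hL hc, csInf_le hb hc⟩,
    Real.sInf_nonneg (fun c hc => ch_nonneg hκ ha hL hc), fun hx => csInf_le hb (Ch.stop x w hx), ?_⟩
  unfold mm
  congr 1
  ext c
  constructor
  · intro h
    have := ch_neg h2 h
    rwa [neg_neg] at this
  · intro h
    exact ch_neg h2 h

end Pool.Agent.H13.ERG
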